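import Pool.Agent.TH226.FR.Kraft

/-! From the words of MP_f298ee_co (no `l`-flash, no `k`-rainbow) to levels and `RB`;
the cases `l ≤ 2`. -/

namespace Pool.Agent.TH226.FR

open Finset Pool.Agent.TH780.FR

variable {c : ℕ → ℕ → ℕ} {V : Finset ℕ} {l k R : ℕ} {lam : ℕ → ℕ → ℕ}

/-- there is a monochromatic chain of `m` edges of colour `a` in `V` ending at `x` -/
inductive Ch (c : ℕ → ℕ → ℕ) (V : Finset ℕ) (a : ℕ) : ℕ → ℕ → Prop
  | nil {x : ℕ} (hx : x ∈ V) : Ch c V a 0 x
  | snoc {m x y : ℕ} : Ch c V a m x → x < y → y ∈ V → c x y = a → Ch c V a (m + 1) y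

theorem Ch.mem {a m x : ℕ} (h : Ch c V a m x) : x ∈ V := by
  cases h with
  | nil h => exact h
  | snoc _ _ h _ => exact h

/-- dropping the first edge -/
theorem Ch.pred {a m x : ℕ} (h : Ch c V a (m + 1) x) : Ch c V a m x := by
  induction m generalizing x with
  | zero => exact Ch.nil h.mem
  | succ m ih =>
    cases h with
    | snoc h1 h2 h3 h4 => exact Ch.snoc (ih h1) h2 h3 h4

theorem Ch.le {a m m' x : ℕ} (h : Ch c V a m x) (hm : m' ≤ m) : Ch c V a m' x := by
  induction m with
  | zero =>
    have : m' = 0 := by omega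
    rwa [this]
  | succ m ih =>
    rcases Nat.lt_or_ge m m' with h1 | h1
    · have : m' = m + 1 := by omega
      rwa [this]
    · exact ih h.pred h1

theorem Ch.seq {a m x : ℕ} (h : Ch c V a m x) : ∃ s : ℕ → ℕ, s m = x ∧ (∀ i ≤ m, s i ∈ V) ∧
    (∀ i < m, s i < s (i + 1)) ∧ ∀ i < m, c (s i) (s (i + 1)) = a := by
  induction h with
  | nil hx => exact ⟨fun _ => _, rfl, fun _ _ => hx, by simp, by simp⟩
  | snoc h1 h2 h3 h4 ih =>
    rename_i m x y
    obtain ⟨s, hs, hV, hlt, hc⟩ := ih
    refine ⟨fun i => if i ≤ m then s i else y, by simp, ?_, ?_, ?_⟩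
    · intro i _
      by_cases hi : i ≤ m
      · simpa [hi] using hV i hi
      · simpa [hi] using h3
    · intro i hi
      rcases Nat.lt_or_ge i m with h5 | h5
      · have h6 : i ≤ m := by omega
        have h7 : i + 1 ≤ m := by omega
        simpa [h6, h7] using hlt i h5
      · have h6 : i = m := by omega
        subst h6
        simpa [hs] using h2
    · intro i hi
      rcases Nat.lt_or_ge i m with h5 | h5
      · have h6 : i ≤ m := by omega
        have h7 : i + 1 ≤ m := by omega
        simpa [h6, h7] using hc i h5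
      · have h6 : i = m := by omega
        subst h6
        simpa [hs] using h4

/-- no `l`-flash in `V` gives level functions -/
theorem lev_of_no_flash (hl : 1 ≤ l)
    (h : ¬ ∃ (a : ℕ) (s : ℕ → ℕ), (∀ i ≤ l, s i ∈ V) ∧ (∀ i < l, s i < s (i + 1)) ∧
      ∀ i < l, c (s i) (s (i + 1)) = a) : ∃ lam, Lev c V l lam := by
  classical
  have hlt : ∀ a m x, Ch c V a m x → m < l := by
    intro a m x hm
    by_contra hcon
    rw [not_lt] at hcon
    obtain ⟨s, _, h1, h2, h3⟩ := (hm.le hcon).seq
    exact h ⟨a, s, h1, h2, h3⟩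
  refine ⟨fun a x => Nat.findGreatest (fun m => Ch c V a m x) (l - 1), ?_, ?_⟩
  · intro a x _
    have := Nat.findGreatest_le (P := fun m => Ch c V a m x) (l - 1)
    show Nat.findGreatest (fun m => Ch c V a m x) (l - 1) < l
    omega
  · intro x hx y hy hxy
    have h1 : Ch c V (c x y) (Nat.findGreatest (fun m => Ch c V (c x y) m x) (l - 1)) x :=
      Nat.findGreatest_spec (P := fun m => Ch c V (c x y) m x) (Nat.zero_le (l - 1)) (Ch.nil hx)
    have h2 := Ch.snoc h1 hxy hy rfl
    have h3 := hlt _ _ _ h2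
    have h4 := Nat.le_findGreatest (P := fun m => Ch c V (c x y) m y) (n := l - 1)
      (by omega) h2
    show Nat.findGreatest (fun m => Ch c V (c x y) m x) (l - 1)
      < Nat.findGreatest (fun m => Ch c V (c x y) m y) (l - 1)
    omega

/-- the sequence of a rainbow path -/
theorem P_seq {x y : ℕ} {I : Finset ℕ} (h : P c V x y I) : ∃ s : ℕ → ℕ, s I.card = y ∧
    (∀ i ≤ I.card, s i ∈ V) ∧ (∀ i < I.card, s i < s (i + 1)) ∧
    (∀ i < I.card, c (s i) (s (i + 1)) ∈ I) ∧
    ∀ i < I.card, ∀ j < I.card, i ≠ j → c (s i) (s (i + 1)) ≠ c (s j) (s (j + 1)) := by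
  induction h with
  | nil hx => exact ⟨fun _ => _, rfl, fun _ _ => hx, by simp, by simp, by simp⟩
  | snoc h1 h2 h3 h4 ih =>
    rename_i y z I
    obtain ⟨s, hs, hV, hlt, hI, hd⟩ := ih
    have hcard : (insert (c y z) I).card = I.card + 1 := Finset.card_insert_of_notMem h4
    have e1 : ∀ i ≤ I.card, (fun i => if i ≤ I.card then s i else z) i = s i := by
      intro i hi; simp [hi]
    have e2 : (fun i => if i ≤ I.card then s i else z) (I.card + 1) = z := by simp
    have ecol : ∀ i < I.card, c ((fun i => if i ≤ I.card then s i else z) i)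
        ((fun i => if i ≤ I.card then s i else z) (i + 1)) = c (s i) (s (i + 1)) := by
      intro i hi
      rw [e1 i hi.le, e1 (i + 1) hi]
    have elast : c ((fun i => if i ≤ I.card then s i else z) I.card)
        ((fun i => if i ≤ I.card then s i else z) (I.card + 1)) = c y z := by
      rw [e1 _ le_rfl, e2, hs]
    refine ⟨fun i => if i ≤ I.card then s i else z, ?_, ?_, ?_, ?_, ?_⟩
    · rw [hcard]; exact e2
    · intro i hi
      rw [hcard] at hi
      rcases Nat.lt_or_ge I.card i with h5 | h5
      · have : i = I.card + 1 := by omega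
        rw [this, e2]; exact h3
      · rw [e1 i h5]; exact hV i h5
    · intro i hi
      rw [hcard] at hi
      rcases Nat.lt_or_ge i I.card with h5 | h5
      · rw [e1 i h5.le, e1 (i + 1) h5]; exact hlt i h5
      · have : i = I.card := by omega
        rw [this, e1 _ le_rfl, e2, hs]; exact h2
    · intro i hi
      rw [hcard] at hi
      rcases Nat.lt_or_ge i I.card with h5 | h5
      · rw [ecol i h5]; exact Finset.mem_insert_of_mem (hI i h5)
      · have : i = I.card := by omega
        rw [this, elast]; exact Finset.mem_insert_self _ _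
    · intro i hi j hj hij
      rw [hcard] at hi hj
      rcases Nat.lt_or_ge i I.card with h5 | h5
      · rcases Nat.lt_or_ge j I.card with h6 | h6
        · rw [ecol i h5, ecol j h6]; exact hd i h5 j h6 hij
        · have : j = I.card := by omega
          rw [this, ecol i h5, elast]
          intro h7
          exact h4 (h7 ▸ hI i h5)
      · rcases Nat.lt_or_ge j I.card with h6 | h6
        · have : i = I.card := by omega
          rw [this, ecol j h6, elast]
          intro h7
          exact h4 (h7 ▸ hI j h6)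
        · omega

/-- no `k`-rainbow in `V` gives `RB` with `R = k - 1` -/
theorem rb_of_no_rainbow (hk : 1 ≤ k)
    (h : ¬ ∃ s : ℕ → ℕ, (∀ i ≤ k, s i ∈ V) ∧ (∀ i < k, s i < s (i + 1)) ∧
      ∀ i < k, ∀ j < k, i ≠ j → c (s i) (s (i + 1)) ≠ c (s j) (s (j + 1))) :
    RB c V (k - 1) := by
  intro x y I hp
  by_contra hcon
  have h1 : k ≤ I.card := by omega
  obtain ⟨y', J, hJ, _, hJk, _⟩ := hp.take h1
  obtain ⟨s, _, h2, h3, _, h4⟩ := P_seq hJ
  rw [hJk] at h2 h3 h4
  exact h ⟨s, h2, h3, h4⟩

/-- the case `l = 1` -/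
theorem card_le_one_of_lev (hL : Lev c V 1 lam) : V.card ≤ 1 := by
  rw [Finset.card_le_one]
  intro x hx y hy
  rcases lt_trichotomy x y with h | h | h
  · have h1 := hL.mono x hx y hy h
    have h2 := hL.lt (c x y) y hy
    omega
  · exact h
  · have h1 := hL.mono y hy x hx h
    have h2 := hL.lt (c y x) x hx
    omega

/-- the case `l = 2` -/
theorem card_le_two_pow_of_lev (hL : Lev c V 2 lam) (hR : RB c V R) : V.card ≤ 2 ^ R := by
  refine two (c := c) ?_ hR
  intro x hx y hy z hz hxy hyz hc
  have h1 := hL.mono x hx y hy hxy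
  have h2 := hL.mono y hy z hz hyz
  have h3 := hL.lt (c y z) z hz
  rw [hc] at h1
  omega

/-- the cases `l ≤ 2` of the quantitative form -/
theorem small_l {E : ℕ} (hE : E ≤ R) (hl1 : 1 ≤ l) (hl2 : l ≤ 2) (hL : Lev c V l lam)
    (hR : RB c V R) : E * V.card ≤ R * l ^ R := by
  have h : V.card ≤ l ^ R := by
    interval_cases l
    · simpa using card_le_one_of_lev hL
    · exact card_le_two_pow_of_lev hL hR
  exact Nat.mul_le_mul hE h

end Pool.Agent.TH226.FR
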