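import Pool.Agent.TH226.FR.J

/-! J11: few colours (C1) for MP_f298ee_co. -/

namespace Pool.Agent.TH226.FR

open Finset Pool.Agent.TH780.FR

variable {c : ℕ → ℕ → ℕ} {V : Finset ℕ} {l R : ℕ} {lam : ℕ → ℕ → ℕ}

/-- colours into a start of an `R`-path -/
theorem inC_card_aux (hR : RB c V R) {x : ℕ} (hx : x ∈ Hout c V R) : (InC c V x).card ≤ R := by
  obtain ⟨hxV, u, I, hp, hI⟩ := mem_Hout.mp hx
  rw [← hI]
  refine Finset.card_le_card ?_
  intro a ha
  obtain ⟨y, hy, hyx, hc⟩ := mem_InC.mp ha
  by_contra hcon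
  have h1 := P.cons hy hyx hp (by rw [hc]; exact hcon)
  have h2 := hR _ _ _ h1
  rw [hc, Finset.card_insert_of_notMem hcon] at h2
  omega

/-- the key counting step of (C1) -/
theorem few_key (hl : 2 ≤ l) (hL : Lev c V l lam) (hR : RB c V R) (hRec : Rec c V l R)
    {B O : Finset ℕ} {q z e t : ℕ} (hB : B ⊆ V) (hq : ∀ y ∈ B, y < q ∧ c y q = e)
    (hO : P c V q z O) (hOt : O.card = t) (hBO : ∀ y ∈ B, Disjoint (Col c V y) O) :
    B.card * l ^ t ≤ V.card := by
  classical
  rcases B.eq_empty_or_nonempty with h | ⟨y0, hy0⟩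
  · simp [h]
  · have hqV : q ∈ V := hO.left_mem
    have heO : e ∉ O := by
      intro h
      have h1 : e ∈ Col c V y0 := mem_Col.mpr (Or.inr ⟨q, hqV, (hq y0 hy0).1, (hq y0 hy0).2⟩)
      exact (Finset.disjoint_left.mp (hBO y0 hy0)) h1 h
    -- a path in a free subset
    have hpath : ∀ B' ⊆ B, Free c B' (insert e O) → ∀ u y I, P c B' u y I → I.card + 1 + t ≤ R := by
      intro B' hB' hF u y I hp
      have hd := P.disj_of_free hp hF
      rw [Finset.disjoint_insert_right] at hd
      obtain ⟨hyq, hyc⟩ := hq y (hB' hp.right_mem)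
      have h1 := P.snoc (hp.mono (hB'.trans hB)) hyq hqV (by rw [hyc]; exact hd.1)
      rw [hyc] at h1
      have h2 := RB.two hR h1 hO (by
        rw [Finset.disjoint_insert_left]
        exact ⟨heO, hd.2⟩)
      rw [Finset.card_insert_of_notMem hd.1, hOt] at h2
      omega
    have ht : 1 + t ≤ R := by
      have := hpath {y0} (by simpa using hy0) (by
        intro x hx y hy hxy
        rw [Finset.mem_singleton] at hx hy
        omega) y0 y0 ∅ (P.nil (by simp))
      simpa using this
    have hl0 : 0 < l ^ (t + 1) := Nat.pow_pos (by omega)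
    have hK := Pool.Agent.TH226.FR.kraft hL (V.card / l ^ (t + 1)) (insert e O) B hB (by
      intro B' hB' hF
      rw [Nat.le_div_iff_mul_le hl0]
      have h1 := hRec B' (hB'.trans hB) (R - (t + 1)) (by omega) (by
        intro x y I hp
        have := hpath B' hB' hF x y I hp
        omega)
      have h2 : R - (R - (t + 1)) = t + 1 := by omega
      rwa [h2] at h1)
    have hcard : (insert e O).card = t + 1 := by
      rw [Finset.card_insert_of_notMem heO, hOt]
    rw [hcard] at hK
    have h1 : l ^ (t + 1) * (V.card / l ^ (t + 1)) ≤ V.card := Nat.mul_div_le _ _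
    have h2 : B.card * l ^ t ≤ ∑ x ∈ B, l ^ (insert e O \ Col c B x).card := by
      rw [← smul_eq_mul, ← Finset.sum_const]
      refine Finset.sum_le_sum fun x hx => Nat.pow_le_pow_right (by omega) ?_
      rw [← hOt]
      refine Finset.card_le_card ?_
      intro a ha
      rw [Finset.mem_sdiff]
      refine ⟨Finset.mem_insert_of_mem ha, fun h => ?_⟩
      exact (Finset.disjoint_left.mp (hBO x hx)) (Col_mono hB h) ha
    exact h2.trans (hK.trans h1)

end Pool.Agent.TH226.FR

namespace Pool.Agent.TH780.FR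

open Finset Pool.Agent.TH226.FR

variable {c : ℕ → ℕ → ℕ} {V : Finset ℕ} {l R : ℕ} {lam : ℕ → ℕ → ℕ}

/-- J11 few colours -/
theorem few_colours (hl : 2 ≤ l) (hL : Lev c V l lam) (hR : RB c V R) (hRec : Rec c V l R)
    {A V2 : Finset ℕ} {t κ : ℕ} (hA : A ⊆ V) (hA0 : A.Nonempty)
    (hA' : ∀ y ∈ A, (Col c V y).card ≤ 2 * R)
    (hV2 : V2 ⊆ Hout c V R) (hAV : ∀ y ∈ A, ∀ q ∈ V2, y < q) (hκ : V.card ≤ κ * A.card)
    (ht : 2 * κ * R < l ^ t) (ht0 : 1 ≤ t) :
    ∃ C : Finset ℕ, C.card ≤ 8 * t * R ∧ ∃ V' ⊆ V2, V2.card ≤ t * V'.card ∧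
      ∀ w ∈ V', (InC c V' w \ C).card < t := by
  classical
  have hApos : 0 < A.card := Finset.card_pos.mpr hA0
  set deg : ℕ → ℕ := fun o => (A.filter (fun y => o ∈ Col c V y)).card with hdeg
  set N := A.biUnion (fun y => Col c V y) with hN
  set C := N.filter (fun o => A.card ≤ 4 * t * deg o) with hC
  have hdegsum : ∀ S : Finset ℕ, ∑ o ∈ S, deg o = ∑ y ∈ A, (S ∩ Col c V y).card := by
    intro S
    simp only [hdeg]
    simp_rw [Finset.card_filter]
    rw [Finset.sum_comm]
    refine Finset.sum_congr rfl fun y _ => ?_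
    rw [← Finset.card_filter, Finset.filter_mem_eq_inter]
  have hCcard : C.card ≤ 8 * t * R := by
    have h1 : C.card * A.card ≤ 4 * t * ∑ o ∈ C, deg o := by
      rw [Finset.mul_sum, ← smul_eq_mul, ← Finset.sum_const]
      exact Finset.sum_le_sum fun o ho => (Finset.mem_filter.mp ho).2
    have h2 : ∑ o ∈ C, deg o ≤ A.card * (2 * R) := by
      rw [hdegsum, ← smul_eq_mul, ← Finset.sum_const]
      exact Finset.sum_le_sum fun y hy =>
        (Finset.card_le_card Finset.inter_subset_right).trans (hA' y hy)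
    have h3 : C.card * A.card ≤ (8 * t * R) * A.card := by
      calc C.card * A.card ≤ 4 * t * ∑ o ∈ C, deg o := h1
        _ ≤ 4 * t * (A.card * (2 * R)) := Nat.mul_le_mul_left _ h2
        _ = (8 * t * R) * A.card := by ring
    exact Nat.le_of_mul_le_mul_right h3 hApos
  have hrare : ∀ o, o ∉ C → 4 * t * deg o < A.card := by
    intro o ho
    by_contra hcon
    rw [not_lt] at hcon
    apply ho
    rw [hC, Finset.mem_filter]
    refine ⟨?_, hcon⟩
    have h1 : 0 < deg o := by
      rcases Nat.eq_zero_or_pos (deg o) with h | h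
      · rw [h] at hcon; omega
      · exact h
    obtain ⟨y, hy⟩ := Finset.card_pos.mp h1
    rw [Finset.mem_filter] at hy
    exact Finset.mem_biUnion.mpr ⟨y, hy.1, hy.2⟩
  -- no rare path with `t` edges
  have hno : ∀ q ∈ V2, ∀ z O, P c V q z O → Disjoint O C → O.card ≠ t := by
    intro q hq z O hp hd hOt
    set A1 := A.filter (fun y => ¬ Disjoint (Col c V y) O) with hA1
    set A2 := A.filter (fun y => Disjoint (Col c V y) O) with hA2
    have hsum : A2.card + A1.card = A.card := by
      rw [hA1, hA2]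
      exact Finset.card_filter_add_card_filter_not _
    have h1 : 4 * A1.card < A.card := by
      have h2 : A1.card ≤ ∑ o ∈ O, deg o := by
        rw [hdegsum]
        calc A1.card = ∑ y ∈ A, if ¬ Disjoint (Col c V y) O then 1 else 0 := by
              rw [hA1, Finset.card_filter]
          _ ≤ ∑ y ∈ A, (O ∩ Col c V y).card := by
              refine Finset.sum_le_sum fun y _ => ?_
              by_cases h : Disjoint (Col c V y) O
              · rw [if_neg (not_not.mpr h)]
                exact Nat.zero_le _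
              · rw [if_pos h, Nat.one_le_iff_ne_zero]
                intro h3
                rw [Finset.card_eq_zero, Finset.inter_comm] at h3
                exact h (Finset.disjoint_iff_inter_eq_empty.mpr h3)
      have hOne : O.Nonempty := by
        rw [← Finset.card_pos, hOt]; omega
      have h3 : ∑ o ∈ O, 4 * t * deg o < ∑ _o ∈ O, A.card :=
        Finset.sum_lt_sum_of_nonempty hOne fun o ho =>
          hrare o (fun h => (Finset.disjoint_left.mp hd) ho h)
      rw [← Finset.mul_sum, Finset.sum_const, hOt, smul_eq_mul] at h3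
      have h4 : t * (4 * A1.card) < t * A.card := by
        calc t * (4 * A1.card) = 4 * t * A1.card := by ring
          _ ≤ 4 * t * ∑ o ∈ O, deg o := Nat.mul_le_mul_left _ h2
          _ < t * A.card := h3
      exact Nat.lt_of_mul_lt_mul_left h4
    have h5 : A2.card * l ^ t ≤ R * V.card := by
      have hsplit : A2.card = ∑ e ∈ InC c V q, (A2.filter (fun y => c y q = e)).card := by
        apply Finset.card_eq_sum_card_fiberwise
        intro y hy
        rw [Finset.mem_coe] at hy ⊢
        have hyA := (Finset.mem_filter.mp hy).1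
        exact mem_InC.mpr ⟨y, hA hyA, hAV y hyA q hq, rfl⟩
      rw [hsplit, Finset.sum_mul]
      calc ∑ e ∈ InC c V q, (A2.filter (fun y => c y q = e)).card * l ^ t
          ≤ ∑ _e ∈ InC c V q, V.card := by
            refine Finset.sum_le_sum fun e _ => ?_
            refine few_key hl hL hR hRec (q := q) (z := z) (e := e) (O := O) ?_ ?_ hp hOt ?_
            · intro y hy
              exact hA (Finset.mem_filter.mp (Finset.mem_filter.mp hy).1).1
            · intro y hy
              have h6 := Finset.mem_filter.mp hy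
              exact ⟨hAV y (Finset.mem_filter.mp h6.1).1 q hq, h6.2⟩
            · intro y hy
              exact (Finset.mem_filter.mp (Finset.mem_filter.mp hy).1).2
        _ = (InC c V q).card * V.card := by rw [Finset.sum_const, smul_eq_mul]
        _ ≤ R * V.card := Nat.mul_le_mul_right _ (inC_card_aux hR (hV2 hq))
    have h6 : A.card * (3 * l ^ t) < A.card * (2 * l ^ t) := by
      have h7 : 3 * A.card < 4 * A2.card := by omega
      have h8 : 3 * A.card * l ^ t < 4 * A2.card * l ^ t :=
        Nat.mul_lt_mul_of_pos_right h7 (Nat.pow_pos (by omega))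
      calc A.card * (3 * l ^ t) = 3 * A.card * l ^ t := by ring
        _ < 4 * A2.card * l ^ t := h8
        _ = 4 * (A2.card * l ^ t) := by ring
        _ ≤ 4 * (R * V.card) := Nat.mul_le_mul_left _ h5
        _ ≤ 4 * (R * (κ * A.card)) := Nat.mul_le_mul_left _ (Nat.mul_le_mul_left _ hκ)
        _ = A.card * (2 * (2 * κ * R)) := by ring
        _ ≤ A.card * (2 * l ^ t) := Nat.mul_le_mul_left _ (Nat.mul_le_mul_left _ ht.le)
    have h9 : 3 * l ^ t < 2 * l ^ t := Nat.lt_of_mul_lt_mul_left h6
    omega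
  have hlt : ∀ q ∈ V2, ∀ z O, P c V q z O → Disjoint O C → O.card < t := by
    intro q hq z O hp hd
    by_contra hcon
    rw [not_lt] at hcon
    obtain ⟨y', J, hJ, hJO, hJt, _⟩ := hp.take hcon
    exact hno q hq y' J hJ (Finset.disjoint_of_subset_left hJO hd) hJt
  refine ⟨C, hCcard, ?_⟩
  set w : ℕ → ℕ := fun x => Nat.findGreatest
    (fun k => ∃ z O, P c V x z O ∧ Disjoint O C ∧ O.card = k) t with hw
  have hwspec : ∀ x ∈ V2, ∃ z O, P c V x z O ∧ Disjoint O C ∧ O.card = w x := by
    intro x hx
    have := Nat.findGreatest_spec (P := fun k => ∃ z O, P c V x z O ∧ Disjoint O C ∧ O.card = k)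
      (Nat.zero_le t) ⟨x, ∅, P.nil (Hout_sub (hV2 hx)), by simp, by simp⟩
    exact this
  have hwlt : ∀ x ∈ V2, w x < t := by
    intro x hx
    obtain ⟨z, O, hp, hd, hO⟩ := hwspec x hx
    rw [← hO]
    exact hlt x hx z O hp hd
  have hwmax : ∀ x ∈ V2, ∀ z O, P c V x z O → Disjoint O C → O.card ≤ w x := by
    intro x hx z O hp hd
    exact Nat.le_findGreatest (hlt x hx z O hp hd).le ⟨z, O, hp, hd, rfl⟩
  obtain ⟨j, hj, hjc⟩ : ∃ j ∈ Finset.range t, V2.card ≤ t * (V2.filter (fun x => w x = j)).card := by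
    apply Finset.exists_le_of_sum_le (Finset.nonempty_range_iff.mpr (by omega))
    rw [Finset.sum_const, Finset.card_range, smul_eq_mul, ← Finset.mul_sum]
    refine Nat.mul_le_mul_left _ (le_of_eq ?_)
    apply Finset.card_eq_sum_card_fiberwise
    intro x hx
    rw [Finset.mem_coe, Finset.mem_range]
    exact hwlt x hx
  refine ⟨V2.filter (fun x => w x = j), Finset.filter_subset _ _, hjc, ?_⟩
  intro x hx
  obtain ⟨hxV2, hxj⟩ := Finset.mem_filter.mp hx
  obtain ⟨z, O, hp, hd, hO⟩ := hwspec x hxV2
  refine lt_of_le_of_lt (Finset.card_le_card (t := O) ?_) (by rw [hO]; exact hwlt x hxV2)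
  intro a ha
  rw [Finset.mem_sdiff] at ha
  obtain ⟨y, hy, hyx, hc⟩ := mem_InC.mp ha.1
  obtain ⟨hyV2, hyj⟩ := Finset.mem_filter.mp hy
  by_contra hcon
  have h1 := P.cons (Hout_sub (hV2 hyV2)) hyx hp (by rw [hc]; exact hcon)
  rw [hc] at h1
  have h2 := hwmax y hyV2 z _ h1 (by
    rw [Finset.disjoint_insert_left]
    exact ⟨ha.2, hd⟩)
  rw [Finset.card_insert_of_notMem hcon, hO, hxj, hyj] at h2
  omega

end Pool.Agent.TH780.FR
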