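import Pool.Agent.TH226.FR.J

/-! J6, J7, J14 for MP_f298ee_co. -/

namespace Pool.Agent.TH226.FR

open Finset Pool.Agent.TH780.FR

variable {c : ℕ → ℕ → ℕ} {V B D : Finset ℕ} {l R : ℕ} {lam : ℕ → ℕ → ℕ}

/-- J7 regime L -/
theorem bad_large' (hl : 2 ≤ l) (hL : Lev c V l lam) (hR : RB c V R) (hBV : B ⊆ V) (h2 : 2 ≤ R)
    {a : ℕ} (ha : a ∈ D) (hDs : D.card = R) (hBD : ∀ x ∈ B, ∃ u, P c V u x D)
    (hbad : ∀ x ∈ B, ∀ u, ¬ P c V u x (D.erase a)) :
    (B.card : ℚ) ≤ harmonic (R - 1) * (l : ℚ) ^ (R - 1) := by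
  classical
  have herase : (D.erase a).card = R - 1 := by
    rw [Finset.card_erase_of_mem ha, hDs]
  have hcolD : ∀ x ∈ B, ∀ y ∈ B, x < y → c x y ∈ D := by
    intro x hx y hy hxy
    obtain ⟨u, hp⟩ := hBD x hx
    by_contra hcon
    have h3 := hR _ _ _ (P.snoc hp hxy (hBV hy) hcon)
    rw [Finset.card_insert_of_notMem hcon, hDs] at h3
    omega
  have key : ∀ i ∈ Finset.range l, ((B.filter (fun x => lam a x = i)).card : ℚ) ≤
      harmonic (R - 1) * (l : ℚ) ^ (R - 1 - 1) := by
    intro i _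
    have hiB : B.filter (fun x => lam a x = i) ⊆ B := Finset.filter_subset _ _
    refine log_bound hL hl (R - 1) (D.erase a) herase _ (hiB.trans hBV) ?_ ?_
    · intro x hx y hy hxy
      refine Finset.mem_erase.mpr ⟨?_, hcolD x (hiB hx) y (hiB hy) hxy⟩
      intro hc
      have h4 := (Finset.mem_filter.mp hx).2
      have h5 := (Finset.mem_filter.mp hy).2
      have h7 := hL.mono x (hBV (hiB hx)) y (hBV (hiB hy)) hxy
      rw [hc] at h7
      omega
    · rintro ⟨x, y, hp⟩
      exact hbad y (hiB hp.right_mem) x (hp.mono (hiB.trans hBV))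
  have h4 : B.card = ∑ i ∈ Finset.range l, (B.filter (fun x => lam a x = i)).card := by
    apply Finset.card_eq_sum_card_fiberwise
    intro x hx
    rw [Finset.mem_coe, Finset.mem_range]
    exact hL.lt a x (hBV hx)
  have h5 : (B.card : ℚ) = ∑ i ∈ Finset.range l, ((B.filter (fun x => lam a x = i)).card : ℚ) := by
    rw [h4]; push_cast; rfl
  rw [h5]
  calc _ ≤ ∑ _i ∈ Finset.range l, harmonic (R - 1) * (l : ℚ) ^ (R - 1 - 1) :=
        Finset.sum_le_sum key
    _ = l * (harmonic (R - 1) * (l : ℚ) ^ (R - 1 - 1)) := by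
      rw [Finset.sum_const, Finset.card_range, nsmul_eq_mul]
    _ = harmonic (R - 1) * (l : ℚ) ^ (R - 1) := by
      obtain ⟨k, rfl⟩ : ∃ k, R = k + 2 := ⟨R - 2, by omega⟩
      have e1 : k + 2 - 1 = k + 1 := by omega
      have e2 : k + 1 - 1 = k := by omega
      rw [e1, e2, pow_succ]
      ring

/-- number of rainbow colours outside `D` at a vertex of a class -/
theorem class_col (hR : RB c V R) {s : ℕ} (hDs : D.card + s = R)
    (hBV : B ⊆ V) (hBD : ∀ x ∈ B, ∃ u, P c V u x D) :
    ∃ p r : ℕ → ℕ, (∀ x ∈ B, p x < s + 1) ∧ (∀ x ∈ B, r x < s + 1) ∧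
      ∀ i j, ∀ x ∈ B.filter (fun x => p x = i ∧ r x = j),
        (Col c (B.filter (fun x => p x = i ∧ r x = j)) x \ D).card ≤ 2 * s := by
  classical
  have hs : ∀ x y I, P c B x y I → Disjoint I D → I.card ≤ s := by
    intro x y I hp hd
    obtain ⟨u, hu⟩ := hBD x hp.left_mem
    have := RB.two hR hu (hp.mono hBV) hd.symm
    omega
  set p : ℕ → ℕ := fun x => Nat.findGreatest
    (fun k => ∃ z I, P c B z x I ∧ Disjoint I D ∧ I.card = k) s with hp
  set r : ℕ → ℕ := fun x => Nat.findGreatest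
    (fun k => ∃ z I, P c B x z I ∧ Disjoint I D ∧ I.card = k) s with hr
  have hplt : ∀ x, p x < s + 1 := fun x => Nat.lt_succ_of_le (Nat.findGreatest_le s)
  have hrlt : ∀ x, r x < s + 1 := fun x => Nat.lt_succ_of_le (Nat.findGreatest_le s)
  have hpspec : ∀ x ∈ B, ∃ z I, P c B z x I ∧ Disjoint I D ∧ I.card = p x := by
    intro x hx
    exact Nat.findGreatest_spec (P := fun k => ∃ z I, P c B z x I ∧ Disjoint I D ∧ I.card = k)
      (Nat.zero_le s) ⟨x, ∅, P.nil hx, by simp, by simp⟩
  have hrspec : ∀ x ∈ B, ∃ z I, P c B x z I ∧ Disjoint I D ∧ I.card = r x := by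
    intro x hx
    exact Nat.findGreatest_spec (P := fun k => ∃ z I, P c B x z I ∧ Disjoint I D ∧ I.card = k)
      (Nat.zero_le s) ⟨x, ∅, P.nil hx, by simp, by simp⟩
  have hpmax : ∀ x z I, P c B z x I → Disjoint I D → I.card ≤ p x := by
    intro x z I h1 h2
    exact Nat.le_findGreatest (hs _ _ _ h1 h2) ⟨z, I, h1, h2, rfl⟩
  have hrmax : ∀ x z I, P c B x z I → Disjoint I D → I.card ≤ r x := by
    intro x z I h1 h2
    exact Nat.le_findGreatest (hs _ _ _ h1 h2) ⟨z, I, h1, h2, rfl⟩
  refine ⟨p, r, fun x _ => hplt x, fun x _ => hrlt x, ?_⟩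
  intro i j x hx
  obtain ⟨hxB, hxi, hxj⟩ : x ∈ B ∧ p x = i ∧ r x = j := by
    rw [Finset.mem_filter] at hx; exact hx
  obtain ⟨z1, I1, h11, h12, h13⟩ := hpspec x hxB
  obtain ⟨z2, I2, h21, h22, h23⟩ := hrspec x hxB
  have hsub : Col c (B.filter (fun x => p x = i ∧ r x = j)) x \ D ⊆ I1 ∪ I2 := by
    intro a ha
    rw [Finset.mem_sdiff, mem_Col] at ha
    rw [Finset.mem_union]
    rcases ha with ⟨⟨y, hy, hyx, hc⟩ | ⟨y, hy, hxy, hc⟩, haD⟩
    · right
      rw [Finset.mem_filter] at hy
      by_contra hcon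
      have h1 := P.cons hy.1 hyx h21 (by rw [hc]; exact hcon)
      rw [hc] at h1
      have h2 := hrmax y z2 _ h1 (by
        rw [Finset.disjoint_insert_left]
        exact ⟨haD, h22⟩)
      rw [Finset.card_insert_of_notMem hcon, h23, hxj, hy.2.2] at h2
      omega
    · left
      rw [Finset.mem_filter] at hy
      by_contra hcon
      have h1 := P.snoc h11 hxy hy.1 (by rw [hc]; exact hcon)
      rw [hc] at h1
      have h2 := hpmax y z1 _ h1 (by
        rw [Finset.disjoint_insert_left]
        exact ⟨haD, h12⟩)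
      rw [Finset.card_insert_of_notMem hcon, h13, hxi, hy.2.1] at h2
      omega
  calc _ ≤ (I1 ∪ I2).card := Finset.card_le_card hsub
    _ ≤ I1.card + I2.card := Finset.card_union_le _ _
    _ ≤ 2 * s := by
      have := hplt x
      have := hrlt x
      omega

/-- J6 regime S: bound of the bad set. -/
theorem bad_small' (hl : 2 ≤ l) (hL : Lev c V l lam) (hR : RB c V R) (hBV : B ⊆ V)
    {s q a : ℕ} (ha : a ∈ D) (hDs : D.card + s = R) (hBD : ∀ x ∈ B, ∃ u, P c V u x D)
    (hbad : ∀ x ∈ B, ∀ u I, P c V u x I → I ⊆ D.erase a → I.card + 2 + q ≤ D.card) :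
    B.card * 2 ^ (q + 1) ≤ (s + 1) ^ 2 * l ^ (R + s) := by
  classical
  have hDpos : 0 < D.card := Finset.card_pos.mpr ⟨a, ha⟩
  have herase : (D.erase a).card = D.card - 1 := Finset.card_erase_of_mem ha
  -- step 1: subsets coloured by `D.erase a` only
  have step1 : ∀ Y ⊆ B, (∀ x ∈ Y, ∀ y ∈ Y, x < y → c x y ∈ D.erase a) →
      Y.card * 2 ^ (q + 1) ≤ l ^ (D.card - 1) := by
    intro Y hY hcol
    rcases Y.eq_empty_or_nonempty with h | ⟨y0, hy0⟩
    · simp [h]
    · have hq : 2 + q ≤ D.card := by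
        have := hbad y0 (hY hy0) y0 ∅ (P.nil (hBV (hY hy0))) (by simp)
        simpa using this
      have h1 := Pool.Agent.TH226.FR.pairs hL hl (2 ^ (D.card - (2 + q))) (D.erase a) Y
        (hY.trans hBV) (by
          intro Y' hY' hTF
          refine two (c := c) ?_ ?_
          · intro x hx y hy z hz hxy hyz
            exact hTF x hx y hy z hz hxy hyz (hcol x (hY' hx) y (hY' hy) hxy)
          · intro x y I hp
            have h2 : I ⊆ D.erase a := P.subset_of_col hp
              (fun u hu v hv => hcol u (hY' hu) v (hY' hv))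
            have h3 := hbad y (hY (hY' hp.right_mem)) x I
              (hp.mono (hY'.trans (hY.trans hBV))) h2
            omega)
      rw [herase] at h1
      have h2 : (2 : ℕ) ^ (D.card - 1) = 2 ^ (q + 1) * 2 ^ (D.card - (2 + q)) := by
        rw [← pow_add]; congr 1; omega
      rw [h2, ← mul_assoc] at h1
      exact Nat.le_of_mul_le_mul_right h1 (Nat.two_pow_pos _)
  -- step 2: subsets coloured by `D`
  have step2 : ∀ Y ⊆ B, (∀ x ∈ Y, ∀ y ∈ Y, x < y → c x y ∈ D) →
      Y.card * 2 ^ (q + 1) ≤ l ^ D.card := by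
    intro Y hY hcol
    have h4 : Y.card = ∑ i ∈ Finset.range l, (Y.filter (fun x => lam a x = i)).card := by
      apply Finset.card_eq_sum_card_fiberwise
      intro x hx
      rw [Finset.mem_coe, Finset.mem_range]
      exact hL.lt a x (hBV (hY hx))
    rw [h4, Finset.sum_mul]
    calc _ ≤ ∑ _i ∈ Finset.range l, l ^ (D.card - 1) := by
          refine Finset.sum_le_sum fun i _ => ?_
          have hiY : Y.filter (fun x => lam a x = i) ⊆ Y := Finset.filter_subset _ _
          refine step1 _ (hiY.trans hY) ?_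
          intro x hx y hy hxy
          refine Finset.mem_erase.mpr ⟨?_, hcol x (hiY hx) y (hiY hy) hxy⟩
          intro hc
          have h5 := (Finset.mem_filter.mp hx).2
          have h6 := (Finset.mem_filter.mp hy).2
          have h7 := hL.mono x (hBV (hY (hiY hx))) y (hBV (hY (hiY hy))) hxy
          rw [hc] at h7
          omega
      _ = l * l ^ (D.card - 1) := by rw [Finset.sum_const, Finset.card_range, smul_eq_mul]
      _ = l ^ D.card := by
          rw [← pow_succ']; congr 1; omega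
  -- step 3: classes
  obtain ⟨p, r, hp, hr, hcls⟩ := class_col hR hDs hBV hBD
  have step3 : ∀ i j, (B.filter (fun x => p x = i ∧ r x = j)).card * 2 ^ (q + 1)
      ≤ l ^ (R + s) := by
    intro i j
    set Y := B.filter (fun x => p x = i ∧ r x = j) with hY
    have hYB : Y ⊆ B := Finset.filter_subset _ _
    set E := Y.biUnion (fun x => Col c Y x) \ D with hE
    have h1 := Pool.Agent.TH226.FR.kraft_card (D := E) (r := 2 * s) (f := l ^ D.card / 2 ^ (q + 1))
      hL (by omega) (hYB.trans hBV) (by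
        intro x hx
        refine le_trans (Finset.card_le_card ?_) (hcls i j x hx)
        intro b hb
        rw [Finset.mem_inter, hE, Finset.mem_sdiff] at hb
        exact Finset.mem_sdiff.mpr ⟨hb.2, hb.1.2⟩) (by
        intro Y' hY' hF
        rw [Nat.le_div_iff_mul_le (Nat.two_pow_pos _)]
        refine step2 Y' (hY'.trans hYB) ?_
        intro x hx y hy hxy
        by_contra hcon
        refine hF x hx y hy hxy ?_
        rw [hE, Finset.mem_sdiff]
        refine ⟨Finset.mem_biUnion.mpr ⟨x, hY' hx, ?_⟩, hcon⟩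
        exact mem_Col.mpr (Or.inr ⟨y, hY' hy, hxy, rfl⟩))
    calc Y.card * 2 ^ (q + 1) ≤ (l ^ (2 * s) * (l ^ D.card / 2 ^ (q + 1))) * 2 ^ (q + 1) :=
          Nat.mul_le_mul_right _ h1
      _ = l ^ (2 * s) * ((l ^ D.card / 2 ^ (q + 1)) * 2 ^ (q + 1)) := by ring
      _ ≤ l ^ (2 * s) * l ^ D.card := Nat.mul_le_mul_left _ (Nat.div_mul_le_self _ _)
      _ = l ^ (R + s) := by rw [← pow_add]; congr 1; omega
  have hsum : B.card = ∑ i ∈ Finset.range (s + 1), ∑ j ∈ Finset.range (s + 1),
      (B.filter (fun x => p x = i ∧ r x = j)).card := by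
    have h1 : B.card = ∑ i ∈ Finset.range (s + 1), (B.filter (fun x => p x = i)).card := by
      apply Finset.card_eq_sum_card_fiberwise
      intro x hx
      rw [Finset.mem_coe, Finset.mem_range]
      exact hp x hx
    rw [h1]
    refine Finset.sum_congr rfl fun i _ => ?_
    have h2 : (B.filter (fun x => p x = i)).card = ∑ j ∈ Finset.range (s + 1),
        ((B.filter (fun x => p x = i)).filter (fun x => r x = j)).card := by
      apply Finset.card_eq_sum_card_fiberwise
      intro x hx
      rw [Finset.mem_coe, Finset.mem_range]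
      exact hr x (Finset.mem_filter.mp hx).1
    rw [h2]
    refine Finset.sum_congr rfl fun j _ => ?_
    rw [Finset.filter_filter]
  rw [hsum, Finset.sum_mul]
  calc _ ≤ ∑ _i ∈ Finset.range (s + 1), (s + 1) * l ^ (R + s) := by
        refine Finset.sum_le_sum fun i _ => ?_
        rw [Finset.sum_mul]
        calc _ ≤ ∑ _j ∈ Finset.range (s + 1), l ^ (R + s) :=
              Finset.sum_le_sum fun j _ => step3 i j
          _ = (s + 1) * l ^ (R + s) := by rw [Finset.sum_const, Finset.card_range, smul_eq_mul]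
    _ = (s + 1) ^ 2 * l ^ (R + s) := by
        rw [Finset.sum_const, Finset.card_range, smul_eq_mul]; ring

/-- J14 blocks -/
theorem exists_blocks' (Z : Finset ℕ) (m : ℕ) (_hm : 1 ≤ m) :
    ∃ b : ℕ → Finset ℕ, (∀ i < m, b i ⊆ Z) ∧ (∀ i < m, (b i).card = Z.card / m) ∧
      ∀ i j, i < j → j < m → ∀ x ∈ b i, ∀ y ∈ b j, x < y := by
  classical
  set w := Z.card / m with hw
  have hwm : m * w ≤ Z.card := Nat.mul_div_le _ _
  set e : ℕ → ℕ := fun k => if h : k < Z.card then Z.orderEmbOfFin rfl ⟨k, h⟩ else 0 with he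
  have hemono : ∀ k k', k < k' → k' < Z.card → e k < e k' := by
    intro k k' h1 h2
    simp only [he]
    rw [dif_pos (h1.trans h2), dif_pos h2]
    exact (Z.orderEmbOfFin rfl).strictMono h1
  have hemem : ∀ k, k < Z.card → e k ∈ Z := by
    intro k h
    simp only [he]
    rw [dif_pos h]
    exact Finset.orderEmbOfFin_mem Z rfl _
  have hidx : ∀ i t, i < m → t < w → i * w + t < Z.card := by
    intro i t hi ht
    have : (i + 1) * w ≤ m * w := Nat.mul_le_mul_right _ hi
    nlinarith
  refine ⟨fun i => (Finset.range w).image (fun t => e (i * w + t)), ?_, ?_, ?_⟩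
  · intro i hi x hx
    rw [Finset.mem_image] at hx
    obtain ⟨t, ht, rfl⟩ := hx
    exact hemem _ (hidx i t hi (Finset.mem_range.mp ht))
  · intro i hi
    rw [Finset.card_image_of_injOn, Finset.card_range]
    intro t ht t' ht' heq
    rw [Finset.mem_coe, Finset.mem_range] at ht ht'
    simp only at heq
    rcases lt_trichotomy t t' with h | h | h
    · have := hemono (i * w + t) (i * w + t') (by omega) (hidx i t' hi ht')
      omega
    · exact h
    · have := hemono (i * w + t') (i * w + t) (by omega) (hidx i t hi ht)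
      omega
  · intro i j hij hj x hx y hy
    rw [Finset.mem_image] at hx hy
    obtain ⟨t, ht, rfl⟩ := hx
    obtain ⟨t', ht', rfl⟩ := hy
    rw [Finset.mem_range] at ht ht'
    refine hemono _ _ ?_ (hidx j t' hj ht')
    have : (i + 1) * w ≤ j * w := Nat.mul_le_mul_right _ hij
    nlinarith

end Pool.Agent.TH226.FR
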