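import Pool.Agent.TH226.FR.Log

/-! The statements J1-J4 of the plan for MP_f298ee_co. -/

namespace Pool.Agent.TH780.FR

open Finset

variable {c : ℕ → ℕ → ℕ} {V U B D : Finset ℕ} {x y z l R : ℕ} {I J : Finset ℕ} {lam : ℕ → ℕ → ℕ}

/-- J1 (K): Kraft -/
theorem kraft (hL : Lev c B l lam) (D : Finset ℕ) (f : ℕ)
    (hf : ∀ B' ⊆ B, Free c B' D → B'.card ≤ f) :
    ∑ x ∈ B, l ^ (D \ Col c B x).card ≤ l ^ D.card * f :=
  Pool.Agent.TH226.FR.kraft hL f D B (Finset.Subset.refl _) hf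

/-- J1 (K) corollary -/
theorem kraft_card (hl : 1 ≤ l) (hL : Lev c B l lam) (D : Finset ℕ) (f : ℕ)
    (hf : ∀ B' ⊆ B, Free c B' D → B'.card ≤ f) : B.card ≤ l ^ D.card * f :=
  Pool.Agent.TH226.FR.kraft_card_all hL hl (Finset.Subset.refl _) hf

/-- J2 (K2): pairs of levels -/
theorem pairs (hl : 2 ≤ l) (hL : Lev c B l lam) (D : Finset ℕ) (f : ℕ)
    (hf : ∀ B' ⊆ B, TF c B' D → B'.card ≤ f) :
    B.card * 2 ^ D.card ≤ l ^ D.card * f :=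
  Pool.Agent.TH226.FR.pairs hL hl f D B (Finset.Subset.refl _) hf

/-- J3 (L2) -/
theorem two_flash (hTF : ∀ x ∈ B, ∀ y ∈ B, ∀ z ∈ B, x < y → y < z → c x y ≠ c y z)
    (hR : RB c B R) : B.card ≤ 2 ^ R :=
  Pool.Agent.TH226.FR.two hTF hR

/-- J4 (LOG) -/
theorem log_bound (hl : 2 ≤ l) (hL : Lev c B l lam) (_hD : D.Nonempty)
    (hcol : ∀ x ∈ B, ∀ y ∈ B, x < y → c x y ∈ D) (hno : ∀ x y, ¬ P c B x y D) :
    (B.card : ℚ) ≤ harmonic D.card * (l : ℚ) ^ (D.card - 1) :=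
  Pool.Agent.TH226.FR.log_bound hL hl D.card D rfl B (Finset.Subset.refl _) hcol
    (by rintro ⟨x, y, h⟩; exact hno x y h)

end Pool.Agent.TH780.FR
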