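import Pool.Agent.TH780.FR.Defs

/-! Kraft type inequalities for level functions (MP_f298ee_co): (K), (K2), (L2). -/

namespace Pool.Agent.TH226.FR

open Finset Pool.Agent.TH780.FR

variable {c : ℕ → ℕ → ℕ} {V : Finset ℕ} {l : ℕ} {lam : ℕ → ℕ → ℕ}

/-- (K) Kraft's inequality for a family `D` of colours. -/
theorem kraft (hL : Lev c V l lam) (f : ℕ) (D : Finset ℕ) :
    ∀ B ⊆ V, (∀ B' ⊆ B, Free c B' D → B'.card ≤ f) →
      ∑ x ∈ B, l ^ (D \ Col c B x).card ≤ l ^ D.card * f := by
  classical
  induction D using Finset.induction_on with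
  | empty =>
    intro B hB h
    have := h B (Finset.Subset.refl _) (by intro x _ y _ _; simp)
    simpa using this
  | insert a D ha ih =>
    intro B hB h
    set T := B.filter (fun x => a ∈ Col c B x) with hT
    set U := B.filter (fun x => a ∉ Col c B x) with hU
    have hBi : ∀ i, T.filter (fun x => lam a x = i) ∪ U ⊆ B := by
      intro i x hx
      simp only [hT, hU, Finset.mem_union, Finset.mem_filter] at hx
      rcases hx with hx | hx
      · exact hx.1.1
      · exact hx.1
    have key : ∀ i, ∑ x ∈ T.filter (fun x => lam a x = i) ∪ U, l ^ (D \ Col c B x).card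
        ≤ l ^ D.card * f := by
      intro i
      refine le_trans (Finset.sum_le_sum fun x hx => ?_)
        (ih (T.filter (fun x => lam a x = i) ∪ U) ((hBi i).trans hB) ?_)
      · rcases Nat.eq_zero_or_pos l with hl | hl
        · exfalso
          have := hL.lt 0 x (hB (hBi i hx))
          omega
        · exact Nat.pow_le_pow_right hl (Finset.card_le_card
            (Finset.sdiff_subset_sdiff (Finset.Subset.refl _) (Col_mono (hBi i))))
      · intro B' hB' hF
        refine h B' (hB'.trans (hBi i)) ?_
        intro x hx y hy hxy hc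
        rw [Finset.mem_insert] at hc
        rcases hc with hc | hc
        · have hxB := hBi i (hB' hx)
          have hyB := hBi i (hB' hy)
          have hxC : a ∈ Col c B x := mem_Col.mpr (Or.inr ⟨y, hyB, hxy, hc⟩)
          have hyC : a ∈ Col c B y := mem_Col.mpr (Or.inl ⟨x, hxB, hxy, hc⟩)
          have h1 := hB' hx
          have h2 := hB' hy
          simp only [hT, hU, Finset.mem_union, Finset.mem_filter] at h1 h2
          have h1' : lam a x = i := by
            rcases h1 with h1 | h1
            · exact h1.2
            · exact absurd hxC h1.2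
          have h2' : lam a y = i := by
            rcases h2 with h2 | h2
            · exact h2.2
            · exact absurd hyC h2.2
          have h3 := hL.mono x (hB hxB) y (hB hyB) hxy
          rw [hc] at h3
          omega
        · exact hF x hx y hy hxy hc
    have hsum := Finset.sum_le_sum (s := Finset.range l) (fun i _ => key i)
    rw [Finset.sum_const, Finset.card_range, smul_eq_mul] at hsum
    have hdisj : ∀ i, Disjoint (T.filter (fun x => lam a x = i)) U := by
      intro i
      rw [Finset.disjoint_left]
      intro x hx hx'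
      simp only [hT, hU, Finset.mem_filter] at hx hx'
      exact hx'.2 hx.1.2
    have hsplit : ∑ i ∈ Finset.range l, ∑ x ∈ T.filter (fun x => lam a x = i) ∪ U,
        l ^ (D \ Col c B x).card
        = ∑ x ∈ T, l ^ (D \ Col c B x).card + l * ∑ x ∈ U, l ^ (D \ Col c B x).card := by
      have h1 : ∀ i ∈ Finset.range l, ∑ x ∈ T.filter (fun x => lam a x = i) ∪ U,
          l ^ (D \ Col c B x).card = ∑ x ∈ T.filter (fun x => lam a x = i), l ^ (D \ Col c B x).card
            + ∑ x ∈ U, l ^ (D \ Col c B x).card := by
        intro i _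
        exact Finset.sum_union (hdisj i)
      rw [Finset.sum_congr rfl h1, Finset.sum_add_distrib, Finset.sum_const, Finset.card_range,
        smul_eq_mul]
      congr 1
      apply Finset.sum_fiberwise_of_maps_to
      intro x hx
      rw [Finset.mem_range]
      exact hL.lt a x (hB (Finset.mem_filter.mp hx).1)
    have hTU : ∑ x ∈ B, l ^ (insert a D \ Col c B x).card
        = ∑ x ∈ T, l ^ (insert a D \ Col c B x).card + ∑ x ∈ U, l ^ (insert a D \ Col c B x).card := by
      rw [hT, hU]
      exact (Finset.sum_filter_add_sum_filter_not B _ _).symm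
    have hTs : ∑ x ∈ T, l ^ (insert a D \ Col c B x).card = ∑ x ∈ T, l ^ (D \ Col c B x).card := by
      refine Finset.sum_congr rfl fun x hx => ?_
      rw [hT, Finset.mem_filter] at hx
      rw [Finset.insert_sdiff_of_mem _ hx.2]
    have hUs : ∑ x ∈ U, l ^ (insert a D \ Col c B x).card
        = l * ∑ x ∈ U, l ^ (D \ Col c B x).card := by
      rw [Finset.mul_sum]
      refine Finset.sum_congr rfl fun x hx => ?_
      rw [hU, Finset.mem_filter] at hx
      rw [Finset.insert_sdiff_of_notMem _ hx.2, Finset.card_insert_of_notMem, pow_succ, mul_comm]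
      intro h
      exact ha (Finset.mem_sdiff.mp h).1
    rw [hTU, hTs, hUs, ← hsplit, Finset.card_insert_of_notMem ha, pow_succ]
    calc _ ≤ l * (l ^ D.card * f) := hsum
      _ = l ^ D.card * l * f := by ring

/-- Kraft, counting form: at most `r` colours of `D` at every vertex. -/
theorem kraft_card (hL : Lev c V l lam) (hl : 1 ≤ l) {f : ℕ} {D B : Finset ℕ} {r : ℕ} (hB : B ⊆ V)
    (hr : ∀ x ∈ B, (D ∩ Col c B x).card ≤ r)
    (h : ∀ B' ⊆ B, Free c B' D → B'.card ≤ f) :
    B.card ≤ l ^ r * f := by
  classical
  have h1 := kraft hL f D B hB h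
  rcases le_total D.card r with h2 | h2
  · have h3 : B.card ≤ ∑ x ∈ B, l ^ (D \ Col c B x).card := by
      rw [Finset.card_eq_sum_ones]
      exact Finset.sum_le_sum fun x _ => Nat.one_le_pow _ _ hl
    calc B.card ≤ l ^ D.card * f := h3.trans h1
      _ ≤ l ^ r * f := Nat.mul_le_mul_right _ (Nat.pow_le_pow_right hl h2)
  · have h3 : B.card * l ^ (D.card - r) ≤ ∑ x ∈ B, l ^ (D \ Col c B x).card := by
      rw [← smul_eq_mul, ← Finset.sum_const]
      refine Finset.sum_le_sum fun x hx => Nat.pow_le_pow_right hl ?_
      have h4 := Finset.card_inter_add_card_sdiff D (Col c B x)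
      have h5 := hr x hx
      omega
    have h4 : B.card * l ^ (D.card - r) ≤ (l ^ r * f) * l ^ (D.card - r) := by
      calc B.card * l ^ (D.card - r) ≤ l ^ D.card * f := h3.trans h1
        _ = (l ^ r * f) * l ^ (D.card - r) := by
          have : l ^ D.card = l ^ r * l ^ (D.card - r) := by
            rw [← pow_add]; congr 1; omega
          rw [this]; ring
    exact Nat.le_of_mul_le_mul_right h4 (Nat.pow_pos (by omega))

/-- Kraft, crude counting form. -/
theorem kraft_card_all (hL : Lev c V l lam) (hl : 1 ≤ l) {f : ℕ} {D B : Finset ℕ} (hB : B ⊆ V)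
    (h : ∀ B' ⊆ B, Free c B' D → B'.card ≤ f) :
    B.card ≤ l ^ D.card * f :=
  kraft_card hL hl hB (fun x _ => Finset.card_le_card Finset.inter_subset_left) h

/-- (K2) pairs of cyclically consecutive levels. -/
theorem pairs (hL : Lev c V l lam) (hl : 2 ≤ l) (f : ℕ) (D : Finset ℕ) :
    ∀ B ⊆ V, (∀ B' ⊆ B, TF c B' D → B'.card ≤ f) → B.card * 2 ^ D.card ≤ l ^ D.card * f := by
  classical
  induction D using Finset.induction_on with
  | empty =>
    intro B hB h
    have := h B (Finset.Subset.refl _) (by intro x _ y _ z _ _ _ h; simp at h)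
    simpa using this
  | insert a D ha ih =>
    intro B hB h
    have hBi : ∀ i, B.filter (fun x => lam a x = i ∨ lam a x = (i + 1) % l) ⊆ B :=
      fun i => Finset.filter_subset _ _
    have key : ∀ i, (B.filter (fun x => lam a x = i ∨ lam a x = (i + 1) % l)).card * 2 ^ D.card
        ≤ l ^ D.card * f := by
      intro i
      refine ih _ ((hBi i).trans hB) ?_
      intro B' hB' hT
      refine h B' (hB'.trans (hBi i)) ?_
      intro x hx y hy z hz hxy hyz hc he
      rw [Finset.mem_insert] at hc
      rcases hc with hc | hc
      · have h1 := (Finset.mem_filter.mp (hB' hx))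
        have h2 := (Finset.mem_filter.mp (hB' hy))
        have h3 := (Finset.mem_filter.mp (hB' hz))
        have h4 := hL.mono x (hB h1.1) y (hB h2.1) hxy
        have h5 := hL.mono y (hB h2.1) z (hB h3.1) hyz
        rw [← he] at h5
        rw [hc] at h4 h5
        have h1' := h1.2
        have h2' := h2.2
        have h3' := h3.2
        generalize (i + 1) % l = j at *
        omega
      · exact hT x hx y hy z hz hxy hyz hc he
    have hsum := Finset.sum_le_sum (s := Finset.range l) (fun i _ => key i)
    rw [Finset.sum_const, Finset.card_range, smul_eq_mul, ← Finset.sum_mul] at hsum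
    have h2 : 2 * B.card ≤ ∑ i ∈ Finset.range l,
        (B.filter (fun x => lam a x = i ∨ lam a x = (i + 1) % l)).card := by
      have h3 : ∀ i, (B.filter (fun x => lam a x = i ∨ lam a x = (i + 1) % l)).card
          = ∑ x ∈ B, if (lam a x = i ∨ lam a x = (i + 1) % l) then 1 else 0 := by
        intro i
        rw [Finset.card_filter]
      rw [Finset.sum_congr rfl (fun i _ => h3 i), Finset.sum_comm, mul_comm, ← smul_eq_mul,
        ← Finset.sum_const]
      refine Finset.sum_le_sum fun x hx => ?_
      rw [← Finset.card_filter]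
      have hlt := hL.lt a x (hB hx)
      have h4 : ({lam a x, (lam a x + l - 1) % l} : Finset ℕ) ⊆
          (Finset.range l).filter (fun i => lam a x = i ∨ lam a x = (i + 1) % l) := by
        intro i hi
        rw [Finset.mem_insert, Finset.mem_singleton] at hi
        rw [Finset.mem_filter, Finset.mem_range]
        rcases hi with hi | hi
        · subst hi
          exact ⟨hlt, Or.inl rfl⟩
        · subst hi
          refine ⟨Nat.mod_lt _ (by omega), Or.inr ?_⟩
          rw [Nat.mod_add_mod]
          have : lam a x + l - 1 + 1 = lam a x + l := by omega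
          rw [this, Nat.add_mod_right, Nat.mod_eq_of_lt hlt]
      have h5 : lam a x ≠ (lam a x + l - 1) % l := by
        rcases Nat.eq_zero_or_pos (lam a x) with h6 | h6
        · rw [h6]
          have : (0 + l - 1) % l = l - 1 := by
            rw [Nat.zero_add]; exact Nat.mod_eq_of_lt (by omega)
          omega
        · have h7 : (lam a x + l - 1) % l = lam a x - 1 := by
            have : lam a x + l - 1 = (lam a x - 1) + l := by omega
            rw [this, Nat.add_mod_right]
            exact Nat.mod_eq_of_lt (by omega)
          omega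
      calc 2 = ({lam a x, (lam a x + l - 1) % l} : Finset ℕ).card := (Finset.card_pair h5).symm
        _ ≤ _ := Finset.card_le_card h4
    rw [Finset.card_insert_of_notMem ha]
    calc B.card * 2 ^ (D.card + 1) = (2 * B.card) * 2 ^ D.card := by ring
      _ ≤ _ := Nat.mul_le_mul_right _ h2
      _ ≤ l * (l ^ D.card * f) := hsum
      _ = l ^ (D.card + 1) * f := by ring

/-- (L2), anchored form: no two consecutive pairs of the same colour. -/
theorem two_anchored (c : ℕ → ℕ → ℕ) : ∀ (k : ℕ) (B : Finset ℕ) (m : ℕ), m ∈ B →
    (∀ x ∈ B, x ≤ m) →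
    (∀ x ∈ B, ∀ y ∈ B, ∀ z ∈ B, x < y → y < z → c x y ≠ c y z) →
    (∀ x I, P c B x m I → I.card ≤ k) → B.card ≤ 2 ^ k := by
  classical
  intro k
  induction k with
  | zero =>
    intro B m hm hmax hT hP
    by_contra hcon
    have h1 : 1 < B.card := by simpa using hcon
    obtain ⟨x, hx, hxm⟩ := Finset.exists_mem_ne h1 m
    have hlt : x < m := lt_of_le_of_ne (hmax x hx) hxm
    have := hP x _ (P.single hx hm hlt)
    simp at this
  | succ k ih =>
    intro B m hm hmax hT hP
    rcases Nat.lt_or_ge 1 B.card with h1 | h1
    · have hne : (B.erase m).Nonempty := by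
        obtain ⟨x, hx, hxm⟩ := Finset.exists_mem_ne h1 m
        exact ⟨x, Finset.mem_erase.mpr ⟨hxm, hx⟩⟩
      set m' := (B.erase m).max' hne with hm'
      have hm'mem : m' ∈ B.erase m := Finset.max'_mem _ hne
      have hm'B : m' ∈ B := (Finset.mem_erase.mp hm'mem).2
      have hm'lt : m' < m := lt_of_le_of_ne (hmax m' hm'B) (Finset.mem_erase.mp hm'mem).1
      have hm'max : ∀ x ∈ B, x ≠ m → x ≤ m' := fun x hx hxm =>
        Finset.le_max' _ _ (Finset.mem_erase.mpr ⟨hxm, hx⟩)
      set c0 := c m' m with hc0
      set T := B.filter (fun x => ∃ u ∈ B, u < x ∧ c u x = c0) with hTd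
      set S := B.filter (fun x => ¬ ∃ u ∈ B, u < x ∧ c u x = c0) with hSd
      have hTB : T ⊆ B := Finset.filter_subset _ _
      have hSB : S ⊆ B := Finset.filter_subset _ _
      have hmT : m ∈ T := Finset.mem_filter.mpr ⟨hm, m', hm'B, hm'lt, rfl⟩
      have hTfree : ∀ x ∈ T, ∀ y ∈ T, x < y → c x y ∉ ({c0} : Finset ℕ) := by
        intro x hx y hy hxy hcc
        rw [Finset.mem_singleton] at hcc
        obtain ⟨hxB, u, hu, hux, huc⟩ := Finset.mem_filter.mp hx
        exact hT u hu x hxB y (hTB hy) hux hxy (by rw [huc, hcc])
      have hSfree : ∀ x ∈ S, ∀ y ∈ S, x < y → c x y ∉ ({c0} : Finset ℕ) := by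
        intro x hx y hy hxy hcc
        rw [Finset.mem_singleton] at hcc
        exact (Finset.mem_filter.mp hy).2 ⟨x, hSB hx, hxy, hcc⟩
      have hm'S : m' ∈ S := by
        rw [hSd, Finset.mem_filter]
        refine ⟨hm'B, ?_⟩
        rintro ⟨u, hu, hum, huc⟩
        exact hT u hu m' hm'B m hm hum hm'lt (by rw [huc])
      have hTcard : T.card ≤ 2 ^ k := by
        refine ih T m hmT (fun x hx => hmax x (hTB hx))
          (fun x hx y hy z hz => hT x (hTB hx) y (hTB hy) z (hTB hz)) ?_
        intro x I hp
        obtain ⟨hxB, u, hu, hux, huc⟩ := Finset.mem_filter.mp hp.left_mem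
        have hd : c0 ∉ I := by
          have := P.disj_of_free hp (D := {c0}) hTfree
          rw [Finset.disjoint_singleton_right] at this
          exact this
        have h2 := P.cons hu hux (hp.mono hTB) (by rw [huc]; exact hd)
        have h3 := hP _ _ h2
        rw [huc, Finset.card_insert_of_notMem hd] at h3
        omega
      have hScard : S.card ≤ 2 ^ k := by
        refine ih S m' hm'S ?_
          (fun x hx y hy z hz => hT x (hSB hx) y (hSB hy) z (hSB hz)) ?_
        · intro x hx
          refine hm'max x (hSB hx) ?_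
          rintro rfl
          exact (Finset.mem_filter.mp hx).2 ⟨m', hm'B, hm'lt, rfl⟩
        · intro x I hp
          have hd : c0 ∉ I := by
            have := P.disj_of_free hp (D := {c0}) hSfree
            rw [Finset.disjoint_singleton_right] at this
            exact this
          have h2 := P.snoc (hp.mono hSB) hm'lt hm (by rw [← hc0]; exact hd)
          have h3 := hP _ _ h2
          rw [← hc0, Finset.card_insert_of_notMem hd] at h3
          omega
      have hsum : T.card + S.card = B.card := by
        rw [hTd, hSd]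
        exact Finset.card_filter_add_card_filter_not _
      rw [pow_succ]
      omega
    · calc B.card ≤ 1 := h1
        _ ≤ 2 ^ (k + 1) := Nat.one_le_two_pow

/-- (L2): no two consecutive pairs of the same colour and at most `R` edges in a rainbow path:
at most `2 ^ R` vertices. -/
theorem two {B : Finset ℕ} {R : ℕ}
    (hT : ∀ x ∈ B, ∀ y ∈ B, ∀ z ∈ B, x < y → y < z → c x y ≠ c y z)
    (hR : ∀ x y I, P c B x y I → I.card ≤ R) : B.card ≤ 2 ^ R := by
  classical
  rcases B.eq_empty_or_nonempty with h | h
  · simp [h]
  · exact two_anchored c R B (B.max' h) (Finset.max'_mem _ h) (fun x hx => Finset.le_max' _ _ hx)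
      hT (fun x I hp => hR x _ I hp)

end Pool.Agent.TH226.FR
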