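import Pool.Agent.TH226.FR.Kraft

/-! (LOG) and the large-`l` part of (D) for MP_f298ee_co. -/

namespace Pool.Agent.TH226.FR

open Finset Pool.Agent.TH780.FR

variable {c : ℕ → ℕ → ℕ} {V : Finset ℕ} {l : ℕ} {lam : ℕ → ℕ → ℕ}

/-- `harmonic m ≤ k` for `m < 2 ^ k`. -/
theorem harmonic_le_of_lt : ∀ (k m : ℕ), m < 2 ^ k → harmonic m ≤ k := by
  intro k
  induction k with
  | zero =>
    intro m hm
    have : m = 0 := by simpa using hm
    subst this
    simp
  | succ k ih =>
    have h1 : ∀ j ≤ 2 ^ k, harmonic (2 ^ k - 1 + j) ≤ k + (j : ℚ) / 2 ^ k := by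
      intro j
      induction j with
      | zero =>
        intro _
        have := ih (2 ^ k - 1) (Nat.sub_lt (Nat.two_pow_pos k) (by norm_num))
        simpa using this
      | succ j ihj =>
        intro hj
        have h2 := ihj (by omega)
        have h3 : 2 ^ k - 1 + (j + 1) = (2 ^ k - 1 + j) + 1 := by ring
        rw [h3, harmonic_succ]
        have h4 : ((2 ^ k - 1 + j + 1 : ℕ) : ℚ) = 2 ^ k + j := by
          have : 2 ^ k - 1 + j + 1 = 2 ^ k + j := by
            have := Nat.two_pow_pos k
            omega
          rw [this]; push_cast; ring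
        rw [h4]
        have h5 : ((2 : ℚ) ^ k + j)⁻¹ ≤ (2 ^ k)⁻¹ := by
          apply inv_anti₀ (by positivity)
          have : (0 : ℚ) ≤ j := by positivity
          linarith
        have h6 : ((j + 1 : ℕ) : ℚ) / 2 ^ k = (j : ℚ) / 2 ^ k + (2 ^ k)⁻¹ := by
          push_cast; field_simp
        rw [h6]
        linarith
    intro m hm
    rcases Nat.lt_or_ge m (2 ^ k) with h2 | h2
    · have := ih m h2
      push_cast
      linarith
    · have h3 := h1 (m - (2 ^ k - 1)) (by
        have := Nat.two_pow_pos k
        rw [pow_succ] at hm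
        omega)
      have h4 : 2 ^ k - 1 + (m - (2 ^ k - 1)) = m := by
        have := Nat.two_pow_pos k
        omega
      rw [h4] at h3
      have h5 : ((m - (2 ^ k - 1) : ℕ) : ℚ) / 2 ^ k ≤ 1 := by
        rw [div_le_one (by positivity)]
        have : m - (2 ^ k - 1) ≤ 2 ^ k := by
          have := Nat.two_pow_pos k
          rw [pow_succ] at hm
          omega
        exact_mod_cast this
      push_cast
      linarith

/-- (LOG): a set coloured with `m` colours and without a path using all of them. -/
theorem log_bound (hL : Lev c V l lam) (hl : 2 ≤ l) : ∀ (m : ℕ) (D : Finset ℕ), D.card = m →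
    ∀ B ⊆ V, (∀ x ∈ B, ∀ y ∈ B, x < y → c x y ∈ D) → (¬ ∃ x y, P c B x y D) →
      (B.card : ℚ) ≤ harmonic m * (l : ℚ) ^ (m - 1) := by
  classical
  intro m
  induction m with
  | zero =>
    intro D hD B hB hcol hno
    rw [Finset.card_eq_zero] at hD
    subst hD
    have : B = ∅ := by
      by_contra h
      obtain ⟨x, hx⟩ := Finset.nonempty_iff_ne_empty.mpr h
      exact hno ⟨x, x, P.nil hx⟩
    simp [this]
  | succ m ih =>
    intro D hD B hB hcol hno
    have hK := kraft hL 1 D B hB (by
      intro B' hB' hF
      rw [Finset.card_le_one]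
      intro x hx y hy
      rcases lt_trichotomy x y with h | h | h
      · exact absurd (hcol x (hB' hx) y (hB' hy) h) (hF x hx y hy h)
      · exact h
      · exact absurd (hcol y (hB' hy) x (hB' hx) h) (hF y hy x hx h))
    rw [mul_one, hD] at hK
    have h1 : l * ∑ x ∈ B, (D \ Col c B x).card ≤ l * l ^ m := by
      rw [Finset.mul_sum]
      calc ∑ x ∈ B, l * (D \ Col c B x).card ≤ ∑ x ∈ B, l ^ (D \ Col c B x).card := by
            refine Finset.sum_le_sum fun x _ => ?_
            generalize (D \ Col c B x).card = u
            rcases Nat.eq_zero_or_pos u with hu | hu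
            · subst hu; simp
            · obtain ⟨v, rfl⟩ : ∃ v, u = v + 1 := ⟨u - 1, by omega⟩
              rw [pow_succ, mul_comm]
              refine Nat.mul_le_mul_right _ ?_
              calc v + 1 ≤ 2 ^ v := Nat.lt_two_pow_self
                _ ≤ l ^ v := Nat.pow_le_pow_left hl v
        _ ≤ l ^ (m + 1) := hK
        _ = l * l ^ m := by ring
    have h2 : ∑ x ∈ B, (D \ Col c B x).card ≤ l ^ m := Nat.le_of_mul_le_mul_left h1 (by omega)
    have h3 : ∑ a ∈ D, (B.filter (fun x => a ∉ Col c B x)).card = ∑ x ∈ B, (D \ Col c B x).card := by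
      simp_rw [Finset.card_filter]
      rw [Finset.sum_comm]
      refine Finset.sum_congr rfl fun x _ => ?_
      rw [← Finset.card_filter]
      congr 1
      ext a
      simp [Finset.mem_sdiff]
    have hDne : D.Nonempty := by
      rw [← Finset.card_pos, hD]; omega
    obtain ⟨a, haD, ha⟩ : ∃ a ∈ D, (B.filter (fun x => a ∉ Col c B x)).card * (m + 1) ≤ l ^ m := by
      apply Finset.exists_le_of_sum_le hDne
      rw [← Finset.sum_mul, h3, Finset.sum_const, hD, smul_eq_mul, mul_comm]
      exact Nat.mul_le_mul_left _ h2
    set lam' : ℕ → ℕ := fun x => if ∃ u ∈ B, u < x ∧ c u x = a then lam a x else 0 with hlam'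
    have hle : ∀ x, lam' x ≤ lam a x := by
      intro x
      simp only [hlam']
      split_ifs
      · exact le_rfl
      · exact Nat.zero_le _
    set T := B.filter (fun x => a ∈ Col c B x) with hT
    have hTB : T ⊆ B := Finset.filter_subset _ _
    have herase : (D.erase a).card = m := by
      rw [Finset.card_erase_of_mem haD, hD]; rfl
    have key : ∀ i ∈ Finset.range l, ((T.filter (fun x => lam' x = i)).card : ℚ) ≤
        harmonic m * (l : ℚ) ^ (m - 1) := by
      intro i _
      have hiB : T.filter (fun x => lam' x = i) ⊆ B := (Finset.filter_subset _ _).trans hTB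
      refine ih (D.erase a) herase _ (hiB.trans hB) ?_ ?_
      · intro x hx y hy hxy
        refine Finset.mem_erase.mpr ⟨?_, hcol x (hiB hx) y (hiB hy) hxy⟩
        intro hc
        have h4 := (Finset.mem_filter.mp hx).2
        have h5 := (Finset.mem_filter.mp hy).2
        have h6 : lam' y = lam a y := by
          simp only [hlam']
          rw [if_pos ⟨x, hiB hx, hxy, hc⟩]
        have h7 := hL.mono x (hB (hiB hx)) y (hB (hiB hy)) hxy
        rw [hc] at h7
        have h8 := hle x
        omega
      · rintro ⟨x, y, hp⟩
        have hx := hp.left_mem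
        have hy := hp.right_mem
        have hxi := (Finset.mem_filter.mp hx).2
        have hyi := (Finset.mem_filter.mp hy).2
        have hpB := hp.mono hiB
        have hins : insert a (D.erase a) = D := Finset.insert_erase haD
        by_cases hin : ∃ u ∈ B, u < x ∧ c u x = a
        · obtain ⟨u, hu, hux, huc⟩ := hin
          apply hno
          refine ⟨u, y, ?_⟩
          have := P.cons hu hux hpB (by rw [huc]; simp)
          rwa [huc, hins] at this
        · have h4 : lam' x = 0 := by
            simp only [hlam']
            rw [if_neg hin]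
          have h5 : lam' y = 0 := by omega
          have h6 : ¬ ∃ u ∈ B, u < y ∧ c u y = a := by
            rintro ⟨u, hu, huy, huc⟩
            have h7 : lam' y = lam a y := by
              simp only [hlam']
              rw [if_pos ⟨u, hu, huy, huc⟩]
            have h8 := hL.mono u (hB hu) y (hB (hiB hy)) huy
            rw [huc] at h8
            omega
          have h7 : a ∈ Col c B y := (Finset.mem_filter.mp (Finset.mem_filter.mp hy).1).2
          rw [mem_Col] at h7
          rcases h7 with h7 | ⟨z, hz, hyz, hzc⟩
          · exact h6 h7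
          · apply hno
            refine ⟨x, z, ?_⟩
            have := P.snoc hpB hyz hz (by rw [hzc]; simp)
            rwa [hzc, hins] at this
    have hTsum : (T.card : ℚ) ≤ harmonic m * (l : ℚ) ^ m := by
      have h4 : T.card = ∑ i ∈ Finset.range l, (T.filter (fun x => lam' x = i)).card := by
        apply Finset.card_eq_sum_card_fiberwise
        intro x hx
        rw [Finset.mem_coe, Finset.mem_range]
        exact lt_of_le_of_lt (hle x) (hL.lt a x (hB (hTB hx)))
      have h5 : (T.card : ℚ) = ∑ i ∈ Finset.range l, ((T.filter (fun x => lam' x = i)).card : ℚ) := by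
        rw [h4]; push_cast; rfl
      rw [h5]
      calc _ ≤ ∑ _i ∈ Finset.range l, harmonic m * (l : ℚ) ^ (m - 1) := Finset.sum_le_sum key
        _ = l * (harmonic m * (l : ℚ) ^ (m - 1)) := by
          rw [Finset.sum_const, Finset.card_range, nsmul_eq_mul]
        _ ≤ harmonic m * (l : ℚ) ^ m := by
          rcases Nat.eq_zero_or_pos m with hm | hm
          · subst hm; simp
          · obtain ⟨k, rfl⟩ : ∃ k, m = k + 1 := ⟨m - 1, by omega⟩
            have : k + 1 - 1 = k := by omega
            rw [this, pow_succ]
            apply le_of_eq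
            ring
    have hBsum : B.card = (B.filter (fun x => a ∉ Col c B x)).card + T.card := by
      rw [hT, add_comm]
      exact (Finset.card_filter_add_card_filter_not _).symm
    have hU : ((B.filter (fun x => a ∉ Col c B x)).card : ℚ) ≤ ((m + 1 : ℕ) : ℚ)⁻¹ * (l : ℚ) ^ m := by
      rw [inv_mul_eq_div, le_div_iff₀ (by positivity)]
      exact_mod_cast ha
    rw [harmonic_succ]
    have h9 : m + 1 - 1 = m := by omega
    rw [h9]
    have h10 : (B.card : ℚ) = ((B.filter (fun x => a ∉ Col c B x)).card : ℚ) + (T.card : ℚ) := by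
      exact_mod_cast hBsum
    rw [h10]
    linarith

/-- (LOG) with a natural number constant. -/
theorem log_bound_nat (hL : Lev c V l lam) (hl : 2 ≤ l) {m k : ℕ} (hk : m < 2 ^ k) {D : Finset ℕ}
    (hD : D.card = m) {B : Finset ℕ} (hB : B ⊆ V) (hcol : ∀ x ∈ B, ∀ y ∈ B, x < y → c x y ∈ D)
    (hno : ¬ ∃ x y, P c B x y D) : B.card ≤ k * l ^ (m - 1) := by
  have h1 := log_bound hL hl m D hD B hB hcol hno
  have h2 := harmonic_le_of_lt k m hk
  have h3 : (B.card : ℚ) ≤ k * (l : ℚ) ^ (m - 1) :=
    h1.trans (mul_le_mul_of_nonneg_right h2 (by positivity))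
  exact_mod_cast h3

end Pool.Agent.TH226.FR
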