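import Pool.Agent.TH195.FR.J
import Pool.Agent.TH226.FR.D

/-! J13: one stage of (E) for MP_f298ee_co. -/

namespace Pool.Agent.TH226.FR

open Finset Pool.Agent.TH780.FR

variable {c : ℕ → ℕ → ℕ} {V D : Finset ℕ} {l R : ℕ} {lam : ℕ → ℕ → ℕ}

/-- J13 -/
theorem stage' (hl : 2 ≤ l) (hL : Lev c V l lam) (hR : RB c V R) (hRec : Rec c V l R)
    {g : ℕ → ℕ} (hg : ∀ U ⊆ V, ∀ j, RB c U j → U.card ≤ g j * l ^ j) (gm : Monotone g)
    {X W : Finset ℕ} {s q σ K : ℕ} (hX : X ⊆ Hin c V R) (hX0 : X.Nonempty) (hW : W ⊆ V)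
    (hW0 : W.Nonempty) (hXW : ∀ x ∈ X, ∀ w ∈ W, x < w)
    (hDs : D.card + s = R) (hXD : ∀ x ∈ X, ∃ u, P c V u x D)
    (hbad : ∀ a ∈ D, ∀ B ⊆ X,
      (∀ x ∈ B, ∀ u I, P c V u x I → I ⊆ D.erase a → I.card + 2 + q ≤ D.card) →
      B.card * K ≤ X.card)
    (hα : 4 * R * V.card ≤ l ^ σ * X.card)
    (hW1 : 4 * g (s + q) * l ^ (R + q) ≤ W.card)
    (hW2 : 16 * R * g σ * l ^ R ≤ K * W.card) (hK : 0 < K) :
    0 < s ∧ ∃ a, a ∉ D ∧ ∃ X' ⊆ W, W.card ≤ 2 * R * X'.card ∧
      ∀ x ∈ X', ∃ u, P c V u x (insert a D) := by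
  classical
  have hXV : X ⊆ V := hX.trans Hin_sub
  have hXpos : 0 < X.card := Finset.card_pos.mpr hX0
  have hWpos : 0 < W.card := Finset.card_pos.mpr hW0
  have hl1 : 1 ≤ l := by omega
  have hRpos : 1 ≤ R := by
    obtain ⟨x, hx⟩ := hX0
    obtain ⟨w, hw⟩ := hW0
    have := hR _ _ _ (P.single (c := c) (hXV hx) (hW hw) (hXW x hx w hw))
    simpa using this
  -- bad and exceptional pairs
  set bad : ℕ → Finset ℕ := fun a => X.filter
    (fun x => ∀ u I, P c V u x I → I ⊆ D.erase a → I.card + 2 + q ≤ D.card) with hbd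
  set exc : ℕ → Finset ℕ := fun a => X.filter
    (fun x => ∀ u I, P c V u x I → a ∉ I → I.card + 1 + σ ≤ R) with hex
  have hbadc : ∀ a ∈ D, (bad a).card * K ≤ X.card := fun a ha =>
    hbad a ha (bad a) (Finset.filter_subset _ _) (fun x hx => (Finset.mem_filter.mp hx).2)
  have hexcc : ∀ a, 4 * R * (exc a).card ≤ X.card := by
    intro a
    have h1 := few_in hl1 hL hRec a σ (B := exc a) ((Finset.filter_subset _ _).trans hXV)
      (fun x hx => (Finset.mem_filter.mp hx).2)
    have h2 : l ^ σ * (4 * R * (exc a).card) ≤ l ^ σ * X.card := by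
      calc l ^ σ * (4 * R * (exc a).card) = 4 * R * ((exc a).card * l ^ σ) := by ring
        _ ≤ 4 * R * V.card := Nat.mul_le_mul_left _ h1
        _ ≤ l ^ σ * X.card := hα
    exact Nat.le_of_mul_le_mul_left h2 (Nat.pow_pos (by omega))
  have hchoose : ∃ x ∈ X, (∀ a ∈ D, x ∉ exc a) ∧
      K * (D.filter (fun a => x ∈ bad a)).card ≤ 2 * R := by
    by_contra hcon
    push Not at hcon
    have h1 : ∀ x ∈ X, 2 * R ≤ 2 * R * (D.filter (fun a => x ∈ exc a)).card +
        K * (D.filter (fun a => x ∈ bad a)).card := by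
      intro x hx
      by_cases h : ∀ a ∈ D, x ∉ exc a
      · have := hcon x hx h
        omega
      · push Not at h
        obtain ⟨a, ha, hxa⟩ := h
        have h2 : 1 ≤ (D.filter (fun a => x ∈ exc a)).card :=
          Finset.card_pos.mpr ⟨a, Finset.mem_filter.mpr ⟨ha, hxa⟩⟩
        nlinarith
    have h2 := Finset.sum_le_sum h1
    rw [Finset.sum_const, smul_eq_mul, Finset.sum_add_distrib, ← Finset.mul_sum,
      ← Finset.mul_sum] at h2
    have hswap : ∀ f : ℕ → Finset ℕ, (∀ a, f a ⊆ X) →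
        ∑ x ∈ X, (D.filter (fun a => x ∈ f a)).card = ∑ a ∈ D, (f a).card := by
      intro f hf
      simp_rw [Finset.card_filter]
      rw [Finset.sum_comm]
      refine Finset.sum_congr rfl fun a _ => ?_
      rw [← Finset.card_filter]
      congr 1
      ext x
      simp only [Finset.mem_filter]
      exact ⟨fun h => h.2, fun h => ⟨hf a h, h⟩⟩
    rw [hswap exc (fun a => Finset.filter_subset _ _),
      hswap bad (fun a => Finset.filter_subset _ _)] at h2
    have h3 : 4 * R * ∑ a ∈ D, (exc a).card ≤ R * X.card := by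
      rw [Finset.mul_sum]
      calc _ ≤ ∑ _a ∈ D, X.card := Finset.sum_le_sum fun a _ => hexcc a
        _ = D.card * X.card := by rw [Finset.sum_const, smul_eq_mul]
        _ ≤ R * X.card := Nat.mul_le_mul_right _ (by omega)
    have h4 : K * ∑ a ∈ D, (bad a).card ≤ R * X.card := by
      rw [Finset.mul_sum]
      calc _ ≤ ∑ _a ∈ D, X.card := Finset.sum_le_sum fun a ha => by
            rw [mul_comm]; exact hbadc a ha
        _ = D.card * X.card := by rw [Finset.sum_const, smul_eq_mul]
        _ ≤ R * X.card := Nat.mul_le_mul_right _ (by omega)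
    have h5 : 0 < R * X.card := Nat.mul_pos (by omega) hXpos
    nlinarith
  obtain ⟨x, hxX, hxexc, hxbad⟩ := hchoose
  have hxV : x ∈ V := hXV hxX
  have hout : (OutC c V x).card ≤ R := outC_card hR (hX hxX)
  -- the three parts of `W`
  set U1 := W.filter (fun w => c x w ∈ D ∧ x ∉ bad (c x w)) with hU1
  set U2 := W.filter (fun w => c x w ∈ D ∧ x ∈ bad (c x w)) with hU2
  set U3 := W.filter (fun w => c x w ∉ D) with hU3
  have hWsum : W.card ≤ U1.card + U2.card + U3.card := by
    have : W ⊆ U1 ∪ U2 ∪ U3 := by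
      intro w hw
      simp only [hU1, hU2, hU3, Finset.mem_union, Finset.mem_filter]
      by_cases h1 : c x w ∈ D
      · by_cases h2 : x ∈ bad (c x w)
        · exact Or.inl (Or.inr ⟨hw, h1, h2⟩)
        · exact Or.inl (Or.inl ⟨hw, h1, h2⟩)
      · exact Or.inr ⟨hw, h1⟩
    calc W.card ≤ (U1 ∪ U2 ∪ U3).card := Finset.card_le_card this
      _ ≤ (U1 ∪ U2).card + U3.card := Finset.card_union_le _ _
      _ ≤ U1.card + U2.card + U3.card := Nat.add_le_add_right (Finset.card_union_le _ _) _
  have hU1c : 4 * U1.card ≤ W.card := by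
    have h1 := card_WD (U := U1) (q := q) hl1 hL hR hg hDs ((Finset.filter_subset _ _).trans hW)
      (by
        intro w hw
        obtain ⟨hwW, hcD, hnb⟩ := Finset.mem_filter.mp hw
        have h2 : ∃ u I, P c V u x I ∧ I ⊆ D.erase (c x w) ∧ D.card < I.card + 2 + q := by
          by_contra hcon
          push Not at hcon
          exact hnb (Finset.mem_filter.mpr ⟨hxX, hcon⟩)
        obtain ⟨u, I, hp, hI, hc⟩ := h2
        have h3 : c x w ∉ I := fun h => (Finset.mem_erase.mp (hI h)).1 rfl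
        refine ⟨u, insert (c x w) I, P.snoc hp (hXW x hxX w hwW) (hW hwW) h3, ?_, ?_⟩
        · intro b hb
          rcases Finset.mem_insert.mp hb with rfl | hb
          · exact hcD
          · exact (Finset.mem_erase.mp (hI hb)).2
        · rw [Finset.card_insert_of_notMem h3]
          omega)
    calc 4 * U1.card ≤ 4 * (g (s + q) * l ^ (R + q)) := Nat.mul_le_mul_left _ h1
      _ = 4 * g (s + q) * l ^ (R + q) := by ring
      _ ≤ W.card := hW1
  have hN : ∀ a ∈ D, (W.filter (fun w => c x w = a)).card ≤ g σ * l ^ R := by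
    intro a ha
    rcases (W.filter (fun w => c x w = a)).eq_empty_or_nonempty with h | ⟨w0, hw0⟩
    · rw [h]; simp
    · have h2 : ∃ u I, P c V u x I ∧ a ∉ I ∧ R < I.card + 1 + σ := by
        by_contra hcon
        push Not at hcon
        exact hxexc a ha (Finset.mem_filter.mpr ⟨hxX, hcon⟩)
      obtain ⟨u, I, hp, haI, hc⟩ := h2
      have h3 : ∀ w ∈ W.filter (fun w => c x w = a), P c V u w (insert a I) := by
        intro w hw
        obtain ⟨hwW, hwa⟩ := Finset.mem_filter.mp hw
        have := P.snoc hp (hXW x hxX w hwW) (hW hwW) (by rw [hwa]; exact haI)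
        rwa [hwa] at this
      have h4 := hR _ _ _ (h3 w0 hw0)
      have hcard : (insert a I).card = I.card + 1 := Finset.card_insert_of_notMem haI
      have h5 := card_VD (U := W.filter (fun w => c x w = a)) (D := insert a I)
        (s := R - (I.card + 1)) hl1 hL hR hg (by rw [hcard] at h4 ⊢; omega)
        ((Finset.filter_subset _ _).trans hW) (fun w hw => ⟨u, h3 w hw⟩)
      refine h5.trans (Nat.mul_le_mul_right _ (gm ?_))
      omega
  have hU2c : 8 * U2.card ≤ W.card := by
    have h1 : U2.card ≤ (D.filter (fun a => x ∈ bad a)).card * (g σ * l ^ R) := by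
      have h2 : U2.card = ∑ a ∈ D.filter (fun a => x ∈ bad a),
          (U2.filter (fun w => c x w = a)).card := by
        apply Finset.card_eq_sum_card_fiberwise
        intro w hw
        rw [Finset.mem_coe] at hw ⊢
        exact Finset.mem_filter.mpr (Finset.mem_filter.mp hw).2
      rw [h2, ← smul_eq_mul, ← Finset.sum_const]
      refine Finset.sum_le_sum fun a ha => ?_
      refine le_trans (Finset.card_le_card ?_) (hN a (Finset.mem_filter.mp ha).1)
      exact Finset.filter_subset_filter _ (Finset.filter_subset _ _)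
    have h3 : K * (8 * U2.card) ≤ K * W.card := by
      calc K * (8 * U2.card) ≤ K * (8 * ((D.filter (fun a => x ∈ bad a)).card * (g σ * l ^ R))) :=
            Nat.mul_le_mul_left _ (Nat.mul_le_mul_left _ h1)
        _ = (K * (D.filter (fun a => x ∈ bad a)).card) * (8 * (g σ * l ^ R)) := by ring
        _ ≤ (2 * R) * (8 * (g σ * l ^ R)) := Nat.mul_le_mul_right _ hxbad
        _ = 16 * R * g σ * l ^ R := by ring
        _ ≤ K * W.card := hW2
    exact Nat.le_of_mul_le_mul_left h3 hK
  have hU3c : W.card ≤ 2 * U3.card := by omega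
  have hU3ne : U3.Nonempty := by
    rw [← Finset.card_pos]; omega
  obtain ⟨u, hu⟩ := hXD x hxX
  have hpath : ∀ w ∈ U3, P c V u w (insert (c x w) D) := by
    intro w hw
    obtain ⟨hwW, hwD⟩ := Finset.mem_filter.mp hw
    exact P.snoc hu (hXW x hxX w hwW) (hW hwW) hwD
  have hs : 0 < s := by
    obtain ⟨w, hw⟩ := hU3ne
    have h1 := hR _ _ _ (hpath w hw)
    rw [Finset.card_insert_of_notMem (Finset.mem_filter.mp hw).2] at h1
    omega
  refine ⟨hs, ?_⟩
  -- the most popular colour
  set S := (OutC c V x).filter (fun a => a ∉ D) with hS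
  have hSmap : ∀ w ∈ U3, c x w ∈ S := by
    intro w hw
    obtain ⟨hwW, hwD⟩ := Finset.mem_filter.mp hw
    exact Finset.mem_filter.mpr ⟨mem_OutC.mpr ⟨w, hW hwW, hXW x hxX w hwW, rfl⟩, hwD⟩
  have hSne : S.Nonempty := by
    obtain ⟨w, hw⟩ := hU3ne
    exact ⟨_, hSmap w hw⟩
  have hSR : S.card ≤ R := (Finset.card_le_card (Finset.filter_subset _ _)).trans hout
  obtain ⟨a, haS, hac⟩ : ∃ a ∈ S, U3.card ≤ R * (U3.filter (fun w => c x w = a)).card := by
    apply Finset.exists_le_of_sum_le hSne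
    rw [Finset.sum_const, smul_eq_mul, ← Finset.mul_sum]
    have h1 : U3.card = ∑ a ∈ S, (U3.filter (fun w => c x w = a)).card := by
      apply Finset.card_eq_sum_card_fiberwise
      intro w hw
      exact hSmap w hw
    rw [← h1]
    exact Nat.mul_le_mul_right _ hSR
  refine ⟨a, (Finset.mem_filter.mp haS).2, U3.filter (fun w => c x w = a), ?_, ?_, ?_⟩
  · exact (Finset.filter_subset _ _).trans (Finset.filter_subset _ _)
  · calc W.card ≤ 2 * U3.card := hU3c
      _ ≤ 2 * (R * (U3.filter (fun w => c x w = a)).card) := Nat.mul_le_mul_left _ hac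
      _ = 2 * R * (U3.filter (fun w => c x w = a)).card := by ring
  · intro w hw
    obtain ⟨hw3, hwa⟩ := Finset.mem_filter.mp hw
    have := hpath w hw3
    rw [hwa] at this
    exact ⟨u, this⟩

end Pool.Agent.TH226.FR
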